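import Mathlib
set_option autoImplicit false
namespace Pool.Agent.Results.MP_54b381_gt.Main
open Set
universe u

def IsCoarse {X : Type u} (ℰ : Set (Set (X × X))) : Prop :=
  (∀ E ∈ ℰ, ∀ x, (x, x) ∈ E) ∧
    (∀ E ∈ ℰ, ∀ F ∈ ℰ, {p | ∃ y, (p.1, y) ∈ E ∧ (y, p.2) ∈ F} ∈ ℰ) ∧
    (∀ E ∈ ℰ, Prod.swap ⁻¹' E ∈ ℰ) ∧ ∀ E ∈ ℰ, ∀ F, (∀ x, (x, x) ∈ F) → F ⊆ E → F ∈ ℰ

def IsLinOrdCoarse {X : Type u} [LinearOrder X] (ℰ : Set (Set (X × X))) : Prop :=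
  IsCoarse ℰ ∧ (∀ x y, ∃ E ∈ ℰ, (x, y) ∈ E) ∧
    ∀ E ∈ ℰ, ∃ F ∈ ℰ, ∀ x y, x < y → (x, y) ∉ F → ∀ x', (x, x') ∈ E → x' < y

def HasIntervalBase {X : Type u} [LinearOrder X] (ℰ : Set (Set (X × X))) : Prop :=
  ∃ ℬ ⊆ ℰ, (∀ E ∈ ℰ, ∃ B ∈ ℬ, E ⊆ B) ∧ ∀ B ∈ ℬ, ∀ x, ∃ a b, a ≤ b ∧ {y | (x, y) ∈ B} = Icc a b

def restrict {X : Type u} (ℰ : Set (Set (X × X))) (Y : Set X) : Set (Set (Y × Y)) :=
  {F | ∃ E ∈ ℰ, F = {p | (p.1.1, p.2.1) ∈ E}}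

def MacroUniform {X Y : Type u} (ℰ : Set (Set (X × X))) (ℱ : Set (Set (Y × Y))) (f : X → Y) :
    Prop := ∀ E ∈ ℰ, ∃ F ∈ ℱ, ∀ x y, (x, y) ∈ E → (f x, f y) ∈ F

variable {X : Type u} [LinearOrder X]

abbrev Z₀ (X : Type u) [LinearOrder X] := Lex (LowerSet X × Bool)

def mem (z : Z₀ X) (C : Set X) : Prop :=
  if (ofLex z).2 then ∃ u ∉ (ofLex z).1, ∀ x ∉ (ofLex z).1, x ≤ u → x ∈ C
  else ∃ l ∈ (ofLex z).1, ∀ x ∈ (ofLex z).1, l ≤ x → x ∈ C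

lemma mem_mono {z : Z₀ X} {C D : Set X} (h : mem z C) (h' : C ⊆ D) : mem z D := by
  unfold mem at *
  split_ifs at * <;> exact h.imp fun _ h => ⟨h.1, fun x a b => h' (h.2 x a b)⟩

lemma mem_inter {z : Z₀ X} {C D : Set X} (h : mem z C) (h' : mem z D) : (C ∩ D).Nonempty := by
  unfold mem at *
  split_ifs at * <;> obtain ⟨a, h1, h2⟩ := h <;> obtain ⟨b, h3, h4⟩ := h' <;>
    rcases le_total a b with h | h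
  exacts [⟨a, h2 a h1 le_rfl, h4 a h1 h⟩, ⟨b, h2 b h3 h, h4 b h3 le_rfl⟩,
    ⟨b, h2 b h3 h, h4 b h3 le_rfl⟩, ⟨a, h2 a h1 le_rfl, h4 a h1 h⟩]

def pt (x : X) : Z₀ X := toLex (LowerSet.Iic x, false)

lemma mem_pt {x : X} {C : Set X} : mem (pt x) C ↔ x ∈ C :=
  ⟨fun ⟨_, h1, h2⟩ => h2 x le_rfl h1, fun h => ⟨x, le_rfl, fun _ h1 h2 => le_antisymm h2 h1 ▸ h⟩⟩

lemma le_same {α : Type u} [LinearOrder α] (a b : α) (c : Bool) :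
    toLex (a, c) ≤ toLex (b, c) ↔ a ≤ b := by
  rw [Prod.Lex.toLex_le_toLex, le_iff_lt_or_eq (a := a)]
  simp

lemma le_tf {α : Type u} [LinearOrder α] (a b : α) :
    toLex (a, true) ≤ toLex (b, false) ↔ ¬ b ≤ a := by
  simp [Prod.Lex.toLex_le_toLex]

lemma interval {C : Set X} (hC : C.OrdConnected) :
    ∃ a b : Z₀ X, ∀ w, mem w C ↔ w ∈ Icc a b := by
  refine ⟨toLex (⟨{x | ∀ c ∈ C, x < c}, fun _ _ h h' c hc => h.trans_lt (h' c hc)⟩, true),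
    toLex (lowerClosure C, false), ?_⟩
  rintro ⟨L, _ | _⟩
  · change (∃ l ∈ L, ∀ x ∈ L, l ≤ x → x ∈ C) ↔ toLex (_, true) ≤ toLex (L, false) ∧
      toLex (L, false) ≤ toLex (_, false)
    rw [le_same, le_tf]
    constructor
    · rintro ⟨l, h1, h2⟩
      refine ⟨fun h => (h h1 l (h2 l h1 le_rfl)).false, fun x hx => ?_⟩
      rcases le_total l x with h | h
      exacts [⟨x, h2 x hx h, le_rfl⟩, ⟨l, h2 l h1 le_rfl, h⟩]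
    · rintro ⟨h1, h2⟩
      obtain ⟨l, h3, h4⟩ := not_subset.1 h1
      obtain ⟨c, h5, h6⟩ : ∃ c ∈ C, c ≤ l := by simpa using h4
      refine ⟨c, L.lower h6 h3, fun x hx h => ?_⟩
      obtain ⟨d, h7, h8⟩ := h2 hx
      exact hC.out h5 h7 ⟨h, h8⟩
  · change (∃ l ∉ L, ∀ x ∉ L, x ≤ l → x ∈ C) ↔ toLex (_, true) ≤ toLex (L, true) ∧
      toLex (L, true) ≤ toLex (_, false)
    rw [le_same, le_tf]
    constructor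
    · rintro ⟨l, h1, h2⟩
      refine ⟨fun x hx => by_contra fun h => ?_, fun h => h1 (h ⟨l, h2 l h1 le_rfl, le_rfl⟩)⟩
      exact (hx x (h2 x h (hx l (h2 l h1 le_rfl)).le)).false
    · rintro ⟨h1, h2⟩
      obtain ⟨l, ⟨c, h3, h4⟩, h5⟩ := not_subset.1 h2
      refine ⟨c, fun h => h5 (L.lower h4 h), fun x hx h => ?_⟩
      obtain ⟨d, h7, h8⟩ : ∃ d ∈ C, d ≤ x := by simpa using mt (@h1 x) hx
      exact hC.out h7 h3 ⟨h8, h⟩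

lemma hull {ℰ : Set (Set (X × X))} (h : IsLinOrdCoarse ℰ) {E : Set (X × X)} (hE : E ∈ ℰ) :
    ∃ F ∈ ℰ, ∀ S : Set X, S ×ˢ S ⊆ E → ∃ C, S ⊆ C ∧ C.OrdConnected ∧ C ×ˢ C ⊆ F := by
  obtain ⟨⟨h1, h2, h3, -⟩, -, h4⟩ := h
  obtain ⟨F, hF, h4⟩ := h4 E hE
  refine ⟨_, h2 _ (h2 _ (h3 F hF) E hE) F hF, fun S hS => ⟨{x | ∃ a ∈ S, ∃ b ∈ S, x ∈ Icc a b},
    fun x hx => ⟨x, hx, x, hx, le_rfl, le_rfl⟩, ⟨?_⟩, ?_⟩⟩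
  · rintro x ⟨a, ha, -, -, h5, -⟩ y ⟨-, -, b, hb, -, h6⟩ z hz
    exact ⟨a, ha, b, hb, h5.trans hz.1, hz.2.trans h6⟩
  · have h5 (x a b : X) (ha : a ∈ S) (hb : b ∈ S) (h : x ∈ Icc a b) : (a, x) ∈ F := by
      rcases h.1.eq_or_lt with rfl | h5
      · exact h1 F hF _
      · exact by_contra fun h6 => (h4 a x h5 h6 b (hS ⟨ha, hb⟩)).not_ge h.2
    rintro ⟨x, y⟩ ⟨⟨a, ha, b, hb, h6⟩, c, hc, d, hd, h7⟩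
    exact ⟨c, ⟨a, h5 x a b ha hb h6, hS ⟨ha, hc⟩⟩, h5 y c d hc hd h7⟩

def Z (ℰ : Set (Set (X × X))) : Set (Z₀ X) := {z | ∃ E ∈ ℰ, ∃ C, mem z C ∧ C ×ˢ C ⊆ E}

def up {ℰ : Set (Set (X × X))} (E : Set (X × X)) : Set (Z ℰ × Z ℰ) :=
  {p | p.1 = p.2 ∨ ∃ A B, mem p.1.1 A ∧ mem p.2.1 B ∧ A ×ˢ B ⊆ E}

def ℰZ (ℰ : Set (Set (X × X))) : Set (Set (Z ℰ × Z ℰ)) :=
  {G | (∀ z, (z, z) ∈ G) ∧ ∃ E ∈ ℰ, G ⊆ up E}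

lemma base {ℰ : Set (Set (X × X))} (h : IsLinOrdCoarse ℰ) {G : Set (Z ℰ × Z ℰ)} (hG : G ∈ ℰZ ℰ) :
    ∃ B ∈ ℰZ ℰ, G ⊆ B ∧ ∀ x, ∃ a b, {y | (x, y) ∈ B} = Icc a b := by
  obtain ⟨h0, E, hE, hG⟩ := hG
  obtain ⟨h1, h2, h3, -⟩ := h.1
  obtain ⟨F, hF, H⟩ := hull h (h2 _ (h2 _ (h3 E hE) E hE) _ (h2 _ (h3 E hE) E hE))
  have (z : Z ℰ) : ∃ a b, (∀ w, (z, w) ∈ up E → w ∈ Icc a b) ∧ ∀ w ∈ Icc a b, (z, w) ∈ up F := by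
    by_cases h4 : ∃ A, ∃ b, mem z.1 A ∧ ∀ a ∈ A, (a, b) ∈ E
    · obtain ⟨A, b, h4, h5⟩ := h4
      have h6 (x : X) (hx : x ∈ A ∪ {y | ∃ A, mem z.1 A ∧ ∀ a ∈ A, (a, y) ∈ E}) :
          (∃ a, (a, b) ∈ E ∧ (a, x) ∈ E) := by
        rcases hx with hx | ⟨A', h6, h7⟩
        · exact ⟨x, h5 x hx, h1 E hE x⟩
        · obtain ⟨a, h8, h9⟩ := mem_inter h4 h6
          exact ⟨a, h5 a h8, h7 a h9⟩
      obtain ⟨C, h7, h8, h9⟩ := H _ fun p hp =>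
        ⟨b, (h6 _ hp.1).imp fun _ => And.symm, h6 _ hp.2⟩
      obtain ⟨a, c, h10⟩ := interval h8
      have h11 := mem_mono h4 (subset_union_left.trans h7)
      have h12 := (h10 _).1 h11
      have h13 := h12.1.trans h12.2
      refine ⟨⟨a, F, hF, C, (h10 a).2 ⟨le_rfl, h13⟩, h9⟩, ⟨c, F, hF, C, (h10 c).2 ⟨h13, le_rfl⟩, h9⟩,
        ?_, fun w hw => Or.inr ⟨C, C, h11, (h10 _).2 hw, h9⟩⟩
      rintro w ((rfl : z = w) | ⟨A', B, h14, h15, h16⟩)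
      · exact h12
      · exact (h10 _).1 (mem_mono h15 fun y hy => h7 (Or.inr ⟨A', h14, fun a ha => h16 ⟨ha, hy⟩⟩))
    · refine ⟨z, z, ?_, fun w hw => Or.inl (le_antisymm hw.1 hw.2)⟩
      rintro w ((rfl : z = w) | ⟨A', B, h14, h15, h16⟩)
      · exact ⟨le_rfl, le_rfl⟩
      · obtain ⟨b, hb, -⟩ := mem_inter h15 h15
        exact (h4 ⟨A', b, h14, fun a ha => h16 ⟨ha, hb⟩⟩).elim
  choose a b h4 h5 using this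
  exact ⟨{p | p.2 ∈ Icc (a p.1) (b p.1)}, ⟨fun z => h4 z z (Or.inl rfl), F, hF, fun p => h5 _ _⟩,
    fun p hp => h4 _ _ (hG hp), fun x => ⟨_, _, rfl⟩⟩

theorem result (X : Type u) [LinearOrder X] (ℰ : Set (Set (X × X))) (h : IsLinOrdCoarse ℰ) :
    ∃ (Z : Type u) (_ : LinearOrder Z) (ℱ : Set (Set (Z × Z))), IsLinOrdCoarse ℱ ∧
      HasIntervalBase ℱ ∧ ∃ (Y : Set Z) (f : X ≃ Y),
        MacroUniform ℰ (restrict ℱ Y) f ∧ MacroUniform (restrict ℱ Y) ℰ f.symm := by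
  classical
  obtain ⟨⟨h1, h2, h3, -⟩, h4, -⟩ := id h
  have hu (E) (hE : E ∈ ℰ) : up E ∈ ℰZ ℰ := ⟨fun _ => Or.inl rfl, E, hE, Subset.rfl⟩
  let i : X → Z ℰ := fun x => ⟨pt x, (h4 x x).imp fun E hE =>
    ⟨hE.1, {x}, mem_pt.2 rfl, by simpa using hE.2⟩⟩
  have hi : i.Injective := fun x y h =>
    LowerSet.Iic_injective (congrArg (fun z : Z ℰ => (ofLex z.1).1) h)
  refine ⟨Z ℰ, inferInstance, ℰZ ℰ, ⟨⟨fun _ h => h.1, ?_, ?_, fun E hE F h5 h6 =>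
    ⟨h5, hE.2.imp fun _ h => ⟨h.1, h6.trans h.2⟩⟩⟩, ?_, fun G hG => ?_⟩,
    ⟨{B ∈ ℰZ ℰ | ∀ x, ∃ a b, {y | (x, y) ∈ B} = Icc a b}, sep_subset _ _, fun G hG => ?_,
      fun B hB x => ?_⟩, range i, Equiv.ofInjective i hi, fun E hE => ⟨_, ⟨_, hu E hE, rfl⟩,
      fun x y hxy => Or.inr ⟨{x}, {y}, mem_pt.2 rfl, mem_pt.2 rfl, by simpa using hxy⟩⟩, ?_⟩
  · rintro G ⟨h5, E, hE, h6⟩ G' ⟨h7, F, hF, h8⟩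
    refine ⟨fun z => ⟨z, h5 z, h7 z⟩, _, h2 E hE F hF, ?_⟩
    rintro ⟨x, z⟩ ⟨y, h9, h10⟩
    rcases h6 h9 with (rfl : x = y) | ⟨A, B, ha, hb, hc⟩ <;>
      rcases h8 h10 with (h11 : _ = z) | ⟨A', B', ha', hb', hc'⟩
    · exact Or.inl h11
    · exact Or.inr ⟨A', B', ha', hb', fun p hp => ⟨_, h1 E hE _, hc' hp⟩⟩
    · exact Or.inr ⟨A, B, ha, h11 ▸ hb, fun p hp => ⟨_, hc hp, h1 F hF _⟩⟩
    · obtain ⟨w, h11, h12⟩ := mem_inter hb ha'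
      exact Or.inr ⟨A, B', ha, hb', fun p hp => ⟨w, hc ⟨hp.1, h11⟩, hc' ⟨h12, hp.2⟩⟩⟩
  · rintro G ⟨h5, E, hE, h6⟩
    refine ⟨h5, _, h3 E hE, fun p hp => (h6 hp).imp Eq.symm ?_⟩
    rintro ⟨A, B, ha, hb, hc⟩
    exact ⟨B, A, hb, ha, fun p hp => hc ⟨hp.2, hp.1⟩⟩
  · rintro ⟨z, E, hE, A, ha, hA⟩ ⟨w, F, hF, B, hb, hB⟩
    obtain ⟨x, hx, -⟩ := mem_inter ha ha
    obtain ⟨y, hy, -⟩ := mem_inter hb hb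
    obtain ⟨D, hD, h5⟩ := h4 x y
    exact ⟨_, hu _ (h2 _ (h2 E hE D hD) F hF), Or.inr ⟨A, B, ha, hb, fun p hp =>
      ⟨y, ⟨x, hA ⟨hp.1, hx⟩, h5⟩, hB ⟨hy, hp.2⟩⟩⟩⟩
  · obtain ⟨B, hB, h5, h6⟩ := base h hG
    refine ⟨B, hB, fun x y hxy h7 x' h8 => ?_⟩
    obtain ⟨a, b, h9⟩ := h6 x
    exact lt_of_not_ge fun h10 => h7 (h9.ge ⟨(h9.le (hB.1 x)).1.trans hxy.le,
      h10.trans (h9.le (h5 h8)).2⟩)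
  · obtain ⟨B, hB, h5, h6⟩ := base h hG
    exact ⟨B, ⟨hB, h6⟩, h5⟩
  · obtain ⟨a, b, h5⟩ := hB.2 x
    have := h5.le (hB.1.1 x)
    exact ⟨a, b, this.1.trans this.2, h5⟩
  · rintro _ ⟨G, ⟨-, E, hE, h5⟩, rfl⟩
    refine ⟨E, hE, ?_⟩
    rintro ⟨_, x, rfl⟩ ⟨_, y, rfl⟩ hxy
    simp only [Equiv.ofInjective_symm_apply]
    rcases h5 hxy with h6 | ⟨A, B, ha, hb, hc⟩
    · exact hi h6 ▸ h1 E hE y
    · exact hc ⟨mem_pt.1 ha, mem_pt.1 hb⟩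

end Pool.Agent.Results.MP_54b381_gt.Main
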